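import Pool.Agent.W2helper75.FD.Stm4

set_option autoImplicit false

/-!
# Piece EIG of project FD (part 3): eigenvectors in `Hom(K, ℤ)` and `Hom(K, ℂ)`
-/

namespace Pool.Agent.W2helper2.FD

open Pool.Agent.W2helper75.FD

section
variable {K : Type} [Group K]

/-- the additive functions on a group -/
def Hm (K : Type) [Group K] : Submodule ℤ (K → ℤ) where
  carrier := {f | ∀ x y, f (x * y) = f x + f y}
  zero_mem' := fun x y => by simp
  add_mem' := fun {f g} hf hg x y => by
    simp only [Pi.add_apply, hf x y, hg x y]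
    ring
  smul_mem' := fun c f hf x y => by
    simp only [Pi.smul_apply, smul_eq_mul, hf x y]
    ring

lemma Hm_mul (f : Hm K) (x y : K) : f.1 (x * y) = f.1 x + f.1 y := f.2 x y

lemma Hm_one (f : Hm K) : f.1 1 = 0 := by
  have h := Hm_mul f 1 1
  rw [mul_one] at h
  omega

lemma Hm_inv (f : Hm K) (x : K) : f.1 x⁻¹ = -f.1 x := by
  have h := Hm_mul f x⁻¹ x
  rw [inv_mul_cancel, Hm_one] at h
  omega

lemma Hm_pow (f : Hm K) (x : K) (n : ℕ) : f.1 (x ^ n) = n * f.1 x := by
  induction n with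
  | zero => rw [pow_zero, Hm_one]; simp
  | succ n ih =>
    rw [pow_succ, Hm_mul, ih]
    push_cast
    ring

lemma Hm_zpow (f : Hm K) (x : K) (n : ℤ) : f.1 (x ^ n) = n * f.1 x := by
  cases n with
  | ofNat n =>
    rw [Int.ofNat_eq_natCast, zpow_natCast, Hm_pow]
  | negSucc n =>
    rw [zpow_negSucc, Hm_inv, Hm_pow, Int.negSucc_eq]
    push_cast
    ring

lemma Hm_finite (h : Group.FG K) : Module.Finite ℤ (Hm K) := by
  obtain ⟨S, hS⟩ := h.out
  let r : Hm K →ₗ[ℤ] (S → ℤ) :=
    { toFun := fun f s => f.1 s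
      map_add' := fun f g => rfl
      map_smul' := fun c f => rfl }
  refine Module.Finite.of_injective r ?_
  intro f g hfg
  have h1 : ∀ x ∈ Subgroup.closure (S : Set K), f.1 x = g.1 x := by
    intro x hx
    induction hx using Subgroup.closure_induction with
    | mem x hx => exact congrFun hfg ⟨x, hx⟩
    | one => rw [Hm_one, Hm_one]
    | mul x y _ _ h1 h2 => rw [Hm_mul, Hm_mul, h1, h2]
    | inv x _ h1 => rw [Hm_inv, Hm_inv, h1]
  apply Subtype.ext
  funext x
  exact h1 x (by rw [hS]; exact Subgroup.mem_top x)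

/-- composition with an automorphism -/
def Tm (σ : MulAut K) : Hm K →ₗ[ℤ] Hm K where
  toFun f := ⟨fun x => f.1 (σ x), fun x y => by
    show f.1 (σ (x * y)) = f.1 (σ x) + f.1 (σ y)
    rw [map_mul]
    exact f.2 _ _⟩
  map_add' f g := rfl
  map_smul' c f := rfl

lemma Tm_apply (σ : MulAut K) (f : Hm K) (x : K) : (Tm σ f).1 x = f.1 (σ x) := rfl

/-- as an equivalence -/
noncomputable def Te (σ : MulAut K) : Hm K ≃ₗ[ℤ] Hm K :=
  LinearEquiv.ofLinearMap (Tm σ) (Tm σ⁻¹)
    (by
      apply LinearMap.ext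
      intro f
      apply Subtype.ext
      funext x
      show f.1 (σ⁻¹ (σ x)) = f.1 x
      rw [MulAut.inv_apply_self])
    (by
      apply LinearMap.ext
      intro f
      apply Subtype.ext
      funext x
      show f.1 (σ (σ⁻¹ x)) = f.1 x
      rw [MulAut.apply_inv_self])

lemma Tm_pow (σ : MulAut K) (k : ℕ) : ∀ (f : Hm K) (x : K), ((Tm σ ^ k) f).1 x = f.1 ((σ ^ k) x) := by
  induction k with
  | zero =>
    intro f x
    rfl
  | succ k ih =>
    intro f x
    rw [pow_succ', Module.End.mul_apply, Tm_apply, ih, pow_succ]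
    rfl

/-- a nonzero additive function with values in `ℤ`, divided by the generator of its image -/
lemma exists_surj (f : Hm K) (hf : f ≠ 0) : ∃ φ : K →* Multiplicative ℤ, Function.Surjective φ ∧
    ∀ x y, f.1 x = f.1 y → φ x = φ y := by
  let R : AddSubgroup ℤ :=
    { carrier := Set.range f.1
      zero_mem' := ⟨1, Hm_one f⟩
      add_mem' := by
        rintro _ _ ⟨x, rfl⟩ ⟨y, rfl⟩
        exact ⟨x * y, Hm_mul f x y⟩
      neg_mem' := by
        rintro _ ⟨x, rfl⟩
        exact ⟨x⁻¹, Hm_inv f x⟩ }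
  obtain ⟨a, ha⟩ := Int.subgroup_cyclic R
  rw [← AddSubgroup.zmultiples_eq_closure] at ha
  have hdvd : ∀ x, a ∣ f.1 x := by
    intro x
    have h1 : f.1 x ∈ R := ⟨x, rfl⟩
    rw [ha] at h1
    exact Int.mem_zmultiples_iff.1 h1
  have ha0 : a ≠ 0 := by
    rintro rfl
    apply hf
    apply Subtype.ext
    funext x
    exact zero_dvd_iff.1 (hdvd x)
  obtain ⟨y, hy⟩ : ∃ y, f.1 y = a := by
    have h1 : a ∈ R := by
      rw [ha]
      exact AddSubgroup.mem_zmultiples a
    exact h1
  refine ⟨MonoidHom.mk' (fun x => Multiplicative.ofAdd (f.1 x / a)) ?_, ?_, ?_⟩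
  · intro x z
    rw [← ofAdd_add, Hm_mul, Int.add_ediv_of_dvd_left (hdvd x)]
  · intro n
    refine ⟨y ^ (Multiplicative.toAdd n), ?_⟩
    show Multiplicative.ofAdd (f.1 (y ^ (Multiplicative.toAdd n)) / a) = n
    rw [Hm_zpow, hy, Int.mul_ediv_cancel _ ha0]
    rfl
  · intro x z hxz
    show Multiplicative.ofAdd (f.1 x / a) = Multiplicative.ofAdd (f.1 z / a)
    rw [hxz]

/-- independence over `ℤ` implies independence over `ℂ` -/
lemma indep_C {m : ℕ} (b : Module.Basis (Fin m) ℤ (Hm K)) (w : Fin m → ℂ)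
    (h : ∀ x : K, ∑ j, w j * ((b j).1 x : ℂ) = 0) : w = 0 := by
  by_contra hw
  obtain ⟨j0, hj0⟩ : ∃ j, w j ≠ 0 := by
    by_contra hcon
    push Not at hcon
    exact hw (funext hcon)
  obtain ⟨ℓ, hℓ⟩ : ∃ ℓ : Module.Dual ℚ ℂ, ℓ (w j0) ≠ 0 := by
    by_contra hcon
    push Not at hcon
    exact hj0 ((Module.forall_dual_apply_eq_zero_iff ℚ (w j0)).1 hcon)
  obtain ⟨d, hd⟩ := IsLocalization.exist_integer_multiples_of_finite (nonZeroDivisors ℤ)
    (fun j : Fin m => (ℓ (w j) : ℚ))
  choose z hz using hd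
  have hz' : ∀ j, (z j : ℚ) = ((d : ℤ) : ℚ) * ℓ (w j) := by
    intro j
    have h1 := hz j
    rw [zsmul_eq_mul] at h1
    exact h1
  have h2 : ∑ j, z j • b j = 0 := by
    apply Subtype.ext
    funext x
    have h3 : (∑ j, z j • b j : Hm K).1 x = ∑ j, z j * (b j).1 x := by
      have h4 : ((∑ j, z j • b j : Hm K) : K → ℤ) = ∑ j, z j • (b j : K → ℤ) := by
        rw [Submodule.coe_sum]
        rfl
      have h5 := congrFun h4 x
      rw [Finset.sum_apply] at h5
      exact h5
    rw [h3]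
    have h6 : ((∑ j, z j * (b j).1 x : ℤ) : ℚ) = 0 := by
      push_cast
      have h7 : ∑ j, (z j : ℚ) * ((b j).1 x : ℚ) = ((d : ℤ) : ℚ) * ℓ (∑ j, w j * ((b j).1 x : ℂ)) := by
        rw [map_sum, Finset.mul_sum]
        refine Finset.sum_congr rfl fun j _ => ?_
        have h8 : w j * ((b j).1 x : ℂ) = (((b j).1 x : ℤ) : ℚ) • w j := by
          rw [Rat.smul_def, mul_comm]
          push_cast
          rfl
        rw [h8, map_smul, smul_eq_mul, hz']
        ring
      rw [h7, h x, map_zero, mul_zero]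
    have h9 : (∑ j, z j * (b j).1 x : ℤ) = 0 := by exact_mod_cast h6
    rw [h9]
    rfl
  have h3 := (Fintype.linearIndependent_iff.1 b.linearIndependent) z h2 j0
  have h4 := hz' j0
  rw [h3, Int.cast_zero] at h4
  rcases mul_eq_zero.1 h4.symm with h5 | h5
  · have h6 : (d : ℤ) = 0 := by exact_mod_cast h5
    exact nonZeroDivisors.ne_zero d.2 h6
  · exact hℓ h5

end

theorem p_eig (h : P_KRO) : P_EIG := by
  intro K _ hfg φ₀ x₀ hx₀ σ
  have hfin := Hm_finite hfg
  have hfree : Module.Free ℤ (Hm K) := inferInstance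
  obtain ⟨f0, hf0⟩ : ∃ f : Hm K, f ≠ 0 := by
    refine ⟨⟨fun x => Multiplicative.toAdd (φ₀ x), fun x y => by
      show Multiplicative.toAdd (φ₀ (x * y)) = Multiplicative.toAdd (φ₀ x) + Multiplicative.toAdd (φ₀ y)
      rw [map_mul, toAdd_mul]⟩, ?_⟩
    intro h1
    apply hx₀
    have h2 := congrFun (congrArg Subtype.val h1) x₀
    exact Multiplicative.toAdd.injective h2
  obtain ⟨m, b⟩ : Σ' m : ℕ, Module.Basis (Fin m) ℤ (Hm K) :=
    ⟨Module.finrank ℤ (Hm K), Module.finBasis ℤ (Hm K)⟩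
  have hm : 0 < m := by
    rcases Nat.eq_zero_or_pos m with rfl | h1
    · exfalso
      apply hf0
      apply b.ext_elem
      intro i
      exact i.elim0
    · exact h1
  set A : Matrix (Fin m) (Fin m) ℤ := LinearMap.toMatrix b b (Tm σ) with hA
  have hdet : IsUnit A.det := LinearEquiv.isUnit_det (Te σ) b b
  rcases h m A hm hdet with ⟨k, hk, v, hv, hAv⟩ | ⟨μ, w, hw, hμ0, hμ1, hAw⟩
  · left
    refine ⟨k, hk, ?_⟩
    set f : Hm K := b.equivFun.symm v with hf
    have hrepr : (b.repr f : Fin m → ℤ) = v := by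
      have h1 : b.equivFun f = v := by rw [hf, LinearEquiv.apply_symm_apply]
      rw [← h1]
      rfl
    have hfne : f ≠ 0 := by
      intro h1
      apply hv
      rw [← hrepr, h1]
      simp
    have hfix : (Tm σ ^ k) f = f := by
      have h1 := LinearMap.toMatrix_mulVec_repr b b (Tm σ ^ k) f
      rw [← LinearMap.toMatrix_pow, ← hA, hrepr, hAv] at h1
      apply b.repr.injective
      apply DFunLike.coe_injective
      rw [← h1, hrepr]
    obtain ⟨φ, hφ1, hφ2⟩ := exists_surj f hfne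
    refine ⟨φ, hφ1, fun x => hφ2 _ _ ?_⟩
    rw [← Tm_pow, hfix]
  · right
    refine ⟨fun x => ∑ j, w j * ((b j).1 x : ℂ), μ, ?_, ?_, hμ0, hμ1, ?_⟩
    · intro x y
      show ∑ j, w j * ((b j).1 (x * y) : ℂ) = ∑ j, w j * ((b j).1 x : ℂ) + ∑ j, w j * ((b j).1 y : ℂ)
      rw [← Finset.sum_add_distrib]
      refine Finset.sum_congr rfl fun j _ => ?_
      rw [Hm_mul]
      push_cast
      ring
    · by_contra hcon
      push Not at hcon
      exact hw (indep_C b w hcon)
    · intro x
      show ∑ j, w j * ((b j).1 (σ x) : ℂ) = μ * ∑ j, w j * ((b j).1 x : ℂ)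
      have h1 : ∀ j, ((b j).1 (σ x) : ℂ) = ∑ i, (A i j : ℂ) * ((b i).1 x : ℂ) := by
        intro j
        have h2 : Tm σ (b j) = ∑ i, A i j • b i := by
          rw [← b.sum_repr (Tm σ (b j))]
          refine Finset.sum_congr rfl fun i _ => ?_
          rw [hA, LinearMap.toMatrix_apply]
        have h3 : (Tm σ (b j)).1 x = ∑ i, A i j * (b i).1 x := by
          rw [h2]
          have h4 : ((∑ i, A i j • b i : Hm K) : K → ℤ) = ∑ i, A i j • (b i : K → ℤ) := by
            rw [Submodule.coe_sum]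
            rfl
          have h5 := congrFun h4 x
          rw [Finset.sum_apply] at h5
          exact h5
        rw [Tm_apply] at h3
        rw [h3]
        push_cast
        rfl
      have h2 : ∀ i, ∑ j, (A i j : ℂ) * w j = μ * w i := by
        intro i
        have h3 := congrFun hAw i
        rw [Pi.smul_apply, smul_eq_mul] at h3
        rw [← h3]
        rfl
      simp only [h1, Finset.mul_sum]
      rw [Finset.sum_comm]
      refine Finset.sum_congr rfl fun i _ => ?_
      have h3 : ∑ j, w j * ((A i j : ℂ) * ((b i).1 x : ℂ)) =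
          (∑ j, (A i j : ℂ) * w j) * ((b i).1 x : ℂ) := by
        rw [Finset.sum_mul]
        refine Finset.sum_congr rfl fun j _ => ?_
        ring
      rw [h3, h2]
      ring

end Pool.Agent.W2helper2.FD
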